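import Pool.Agent.H31.HMV

open Pool.Agent.H31.TSp

universe u v

theorem Pool.Agent.Results.MP_aab88c_gt.Main.result
    {X : Type u} [TopologicalSpace X] [TopologicalSpace.MetrizableSpace X] (Y : Set X)
    (hY : IsClosed Y)
    {VX : Type v} [AddCommGroup VX] [Module ℝ VX] [TopologicalSpace VX] [IsTopologicalAddGroup VX]
    [ContinuousSMul ℝ VX] [T2Space VX] (i : X → VX) (hi : IsFreeTVS.{u, v, v} i)
    {VY : Type v} [AddCommGroup VY] [Module ℝ VY] [TopologicalSpace VY] [IsTopologicalAddGroup VY]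
    [ContinuousSMul ℝ VY] [T2Space VY] (j : Y → VY) (hj : IsFreeTVS.{u, v, v} j) :
    ∃ T : VY →L[ℝ] VX, Topology.IsEmbedding T ∧ ∀ y : Y, T (j y) = i y :=
  Pool.Agent.H31.HMV.main hY i hi j hj
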